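import Pool.Agent.PFD.StmtsD5b
import Pool.Agent.Helper85_AT3.LSB
import Pool.Agent.Helper66_AT3.Fnt

set_option autoImplicit false

/-!
PFD rows EIX, SPX, LKE.
-/

open scoped BigOperators

noncomputable section

namespace Pool.Agent.PFD.H6

open Pool.Agent.Helper51_AWC Pool.Agent.Helper79_WRA Pool.Agent.PP Pool.Agent.PP.KF
open Pool.Agent.PP.K9 Pool.Agent.PP.K9.H97 Pool.Agent.PP.H75 Pool.Agent.PP.T3 Pool.Agent.PP.T2
open Pool.Agent.PP.TB (Zd Star iz cz)

section grp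

variable {G : Type} [Group G] {F : Type}

theorem mem_Ei {V : Subgroup G} {γ : G → F} {x : MulAut V} :
    x ∈ Ei V γ ↔ ∃ t ∈ Tg V γ, ∀ v : V, ((x v : V) : G) = t * v * t⁻¹ := by
  constructor
  · rintro ⟨y, hy, rfl⟩
    exact ⟨(y : G), hy, fun v => rfl⟩
  · rintro ⟨t, ht, h⟩
    refine ⟨⟨t, ht.1⟩, ht, ?_⟩
    apply MulEquiv.ext
    intro v
    apply Subtype.ext
    rw [h v]
    rfl

theorem mem_Eix {V : Subgroup G} {γ : G → F} {X : Subgroup G} {x : MulAut V} :
    x ∈ Eix V γ X ↔ ∃ t ∈ Tg V γ, t ∈ X ∧ ∀ v : V, ((x v : V) : G) = t * v * t⁻¹ := by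
  constructor
  · rintro ⟨y, hy, rfl⟩
    exact ⟨(y : G), hy.1, hy.2, fun v => rfl⟩
  · rintro ⟨t, ht, hX, h⟩
    refine ⟨⟨t, ht.1⟩, ⟨ht, hX⟩, ?_⟩
    apply MulEquiv.ext
    intro v
    apply Subtype.ext
    rw [h v]
    rfl

theorem card_Ei (V : Subgroup G) (γ : G → F) :
    Nat.card (Ei V γ) = (Subgroup.centralizer (V : Set G)).relIndex (Tg V γ) := by
  unfold Ei
  rw [← Subgroup.relIndex_ker, Subgroup.normalizerMonoidHom_ker]
  exact Subgroup.relIndex_subgroupOf inf_le_left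

theorem card_Eix (V : Subgroup G) (γ : G → F) (X : Subgroup G) :
    Nat.card (Eix V γ X) = (Subgroup.centralizer (V : Set G)).relIndex (Tg V γ ⊓ X) := by
  unfold Eix
  rw [← Subgroup.relIndex_ker, Subgroup.normalizerMonoidHom_ker]
  exact Subgroup.relIndex_subgroupOf (inf_le_left.trans inf_le_left)

/-- isomorphic groups have the same number of conjugacy classes -/
theorem card_cc {A B : Type} [Group A] [Group B] (a : A ≃* B) :
    Nat.card (ConjClasses A) = Nat.card (ConjClasses B) := by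
  refine Nat.card_congr ⟨ConjClasses.map a.toMonoidHom, ConjClasses.map a.symm.toMonoidHom, ?_, ?_⟩
  · intro x
    obtain ⟨y, rfl⟩ := ConjClasses.exists_rep x
    show ConjClasses.mk (a.symm (a y)) = ConjClasses.mk y
    rw [MulEquiv.symm_apply_apply]
  · intro x
    obtain ⟨y, rfl⟩ := ConjClasses.exists_rep x
    show ConjClasses.mk (a (a.symm y)) = ConjClasses.mk y
    rw [MulEquiv.apply_symm_apply]

theorem v_le_c {V : Subgroup G} (hab : ∀ a ∈ V, ∀ b ∈ V, a * b = b * a) :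
    V ≤ Subgroup.centralizer (V : Set G) := by
  intro v hv
  rw [Subgroup.mem_centralizer_iff]
  intro w hw
  exact hab w hw v hv

theorem mem_Cu {v t : G} : t ∈ Cu v ↔ t * v = v * t := by
  rw [Subgroup.mem_centralizer_iff]
  constructor
  · intro h
    exact (h v rfl).symm
  · intro h w hw
    rw [Set.mem_singleton_iff.1 hw]
    exact h.symm

end grp

theorem eix : EixStmt := by
  intro ℓ F _ G _ _ e V γ h X hX
  have hVC := v_le_c h.ab
  have hVX : V ≤ X := hVC.trans hX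
  have hTg := T3.H85.Tg_eq hVX hX h.gam.supp
  let a : V.subgroupOf X ≃* V := Subgroup.subgroupOfEquivOfLe hVX
  have ha : ∀ v : V.subgroupOf X, ((a v : V) : G) = ((v : X) : G) := fun v => rfl
  have hmap : (Ei (V.subgroupOf X) (fun t : X => γ t)).map (MulAut.congr a).toMonoidHom =
      Eix V γ X := by
    ext y
    constructor
    · rintro ⟨x, hx, rfl⟩
      obtain ⟨t, ht, hxt⟩ := mem_Ei.1 hx
      rw [hTg, Subgroup.mem_subgroupOf] at ht
      refine mem_Eix.2 ⟨(t : G), ht.1, ht.2, fun v => ?_⟩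
      show ((a (x (a.symm v)) : V) : G) = _
      rw [ha, hxt]
      have h1 : (((a.symm v : V.subgroupOf X) : X) : G) = v := by
        rw [← ha, MulEquiv.apply_symm_apply]
      rw [Subgroup.coe_mul, Subgroup.coe_mul, Subgroup.coe_inv, h1]
    · intro hy
      obtain ⟨t, ht, htX, hyt⟩ := mem_Eix.1 hy
      refine ⟨(MulAut.congr a).symm y, ?_, MulEquiv.apply_symm_apply _ _⟩
      refine mem_Ei.2 ⟨⟨t, htX⟩, ?_, fun v => ?_⟩
      · rw [hTg, Subgroup.mem_subgroupOf]
        exact ⟨ht, htX⟩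
      · apply Subtype.ext
        show (((a.symm (y (a v)) : V.subgroupOf X) : X) : G) = t * ((v : X) : G) * t⁻¹
        rw [← ha, MulEquiv.apply_symm_apply, hyt, ha]
  rw [← hmap]
  exact ⟨(MulAut.congr a).subgroupMap _⟩

theorem spx : SpxStmt := by
  intro ℓ F _ G _ _ e V γ h U W hS X hX
  have hVC := v_le_c h.ab
  have hVX : V ≤ X := hVC.trans hX
  have hTg := T3.H85.Tg_eq hVX hX h.gam.supp
  have hT : ∀ t ∈ Tg (V.subgroupOf X) (fun t : X => γ t), (t : G) ∈ Tg V γ := by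
    intro t ht
    rw [hTg, Subgroup.mem_subgroupOf] at ht
    exact ht.1
  refine ⟨fun x hx => hS.lu hx, fun x hx => hS.lw hx, ?_, ?_, ?_, ?_, ?_, ?_⟩
  · rw [eq_bot_iff]
    intro x hx
    have h1 : (x : G) ∈ U ⊓ W := ⟨hx.1, hx.2⟩
    rw [hS.dj] at h1
    exact Subgroup.mem_bot.2 (Subtype.ext (Subgroup.mem_bot.1 h1))
  · rw [← Subgroup.subgroupOf_sup (hS.lu.trans hVX) (hS.lw.trans hVX), hS.jn]
  · intro h0
    apply hS.nt
    rw [eq_bot_iff]
    intro u hu
    have h1 : (⟨u, hVX (hS.lu hu)⟩ : X) ∈ U.subgroupOf X := hu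
    rw [h0] at h1
    exact Subgroup.mem_bot.2 (congrArg Subtype.val (Subgroup.mem_bot.1 h1))
  · intro t ht u hu
    exact hS.su (t : G) (hT t ht) (u : G) hu
  · intro t ht u hu
    exact hS.sw (t : G) (hT t ht) (u : G) hu
  · intro t ht u hu hu1 htu
    rw [cent_sub hVX]
    refine hS.fr (t : G) (hT t ht) (u : G) hu (fun h0 => hu1 (Subtype.ext h0)) ?_
    exact congrArg Subtype.val htu

/-- the fixed points: `Fxs` is `Eix` -/
theorem fxs_equiv {G : Type} [Group G] {F : Type} (V : Subgroup G) (γ : G → F) (v : V) :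
    Nonempty (Fxs (Ei V γ).subtype v ≃* Eix V γ (Cu (v : G))) := by
  have hmap : (Fxs (Ei V γ).subtype v).map (Ei V γ).subtype = Eix V γ (Cu (v : G)) := by
    ext y
    constructor
    · rintro ⟨x, hx, rfl⟩
      obtain ⟨t, ht, hxt⟩ := mem_Ei.1 x.2
      refine mem_Eix.2 ⟨t, ht, ?_, hxt⟩
      rw [mem_Cu]
      have h1 : ((x : MulAut V) v : V) = v := hx
      have h2 := hxt v
      rw [h1] at h2
      exact mul_inv_eq_iff_eq_mul.1 h2.symm
    · intro hy
      obtain ⟨t, ht, htv, hyt⟩ := mem_Eix.1 hy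
      refine ⟨⟨y, mem_Ei.2 ⟨t, ht, hyt⟩⟩, ?_, rfl⟩
      show y v = v
      apply Subtype.ext
      rw [hyt v, mem_Cu.1 htv, mul_inv_cancel_right]
  rw [← hmap]
  exact ⟨Subgroup.equivMapOfInjective _ _ Subtype.val_injective⟩

theorem lke : LkeStmt := by
  intro ℓ F _ G _ _ e V γ h
  refine ⟨?_, fun v => ⟨?_, ?_⟩⟩
  · rw [card_Ei]
    unfold iz
    exact Subgroup.inf_relIndex_right _ _
  · obtain ⟨a⟩ := fxs_equiv V γ v
    rw [Nat.card_congr a.toEquiv, card_Eix]
    unfold cz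
    rw [← Subgroup.inf_relIndex_right, ← Subgroup.inf_relIndex_right (Subgroup.centralizer _)]
    congr 1
    ext t
    constructor
    · intro ht
      exact ⟨ht.1.1, ht.2⟩
    · intro ht
      exact ⟨⟨ht.1, ht.2.1⟩, ht.2⟩
  · have hc : Subgroup.centralizer (V : Set G) ≤ Cu (v : G) := by
      intro t ht
      rw [mem_Cu]
      exact ((Subgroup.mem_centralizer_iff.1 ht) v v.2).symm
    obtain ⟨a⟩ := fxs_equiv V γ v
    obtain ⟨b⟩ := eix ℓ F G e V γ h (Cu (v : G)) hc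
    unfold ke
    exact card_cc (b.trans a.symm)

end Pool.Agent.PFD.H6
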