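import Pool.Agent.PFD.StmtsD6b

set_option autoImplicit false

/-!
PFD row CAT: the relative dual basis and the Casimir element over `S`
(after helper53's proof of CAS).
-/

open scoped BigOperators

noncomputable section

namespace Pool.Agent.PFD.D6.H6

open Pool.Agent.PFC
open Pool.Agent.PFC.B5a (Du)

theorem cat : CatStmt := by
  intro hP F A ι _ _ _ _ S g g' lam c' al m b b' hT hs hnd hC hal hd
  obtain ⟨emem, el, er, eL, eC, -⟩ := hP F A ι S g g' lam c' hT hs hC
  set E : A → A := Ev F g g' lam with hE
  have hEx : ∀ x, E x = ∑ i, lam (g' i * x) • g i := fun x => rfl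
  have h2 : ∀ a : A, c' * E a + ∑ k, al (b k) * E (b' k * a) = a := by
    intro a
    have h1 : ∑ k, al (b k) * E (b' k * a) = a - E a * c' := by
      rw [← hal a]
      have h3 : ∀ k, al (b k) * E (b' k * a) =
          ∑ h, lam (b' k * (a * g' h)) • (al (b k) * g h) := by
        intro k
        rw [hEx, Finset.mul_sum]
        refine Finset.sum_congr rfl fun h _ => ?_
        rw [mul_smul_comm, hs (g' h), mul_assoc]
      rw [Finset.sum_congr rfl fun k _ => h3 k, Finset.sum_comm]
      refine Finset.sum_congr rfl fun h _ => ?_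
      rw [show al (a * g' h) = al (∑ k, lam (b' k * (a * g' h)) • b k) from
        congrArg al (hd _).symm, map_sum, Finset.sum_mul]
      refine Finset.sum_congr rfl fun k _ => ?_
      rw [map_smul, smul_mul_assoc]
    rw [h1, hC.com _ (emem a)]
    abel
  have h4 : ∀ z : A, E (z * c') * 1 + ∑ k, E (z * al (b k)) * b' k = z := by
    intro z
    rw [← sub_eq_zero]
    refine hnd _ fun a => ?_
    rw [sub_mul, map_sub, sub_eq_zero, add_mul, map_add, Finset.sum_mul, map_sum]
    have e1 : lam (z * a) = lam (z * c' * E a) +
        ∑ k, lam (z * al (b k) * E (b' k * a)) := by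
      conv_lhs => rw [← h2 a]
      rw [mul_add, map_add, Finset.mul_sum, map_sum, ← mul_assoc]
      congr 1
      refine Finset.sum_congr rfl fun k _ => ?_
      rw [mul_assoc]
    rw [e1, mul_one, eL]
    congr 1
    refine Finset.sum_congr rfl fun k _ => ?_
    rw [eL, mul_assoc]
  refine ⟨?_, ?_, ?_⟩
  · intro a
    rw [Fintype.sum_option]
    simp only [Option.elim]
    rw [one_mul]
    exact h2 a
  · intro a
    rw [Fintype.sum_option]
    simp only [Option.elim]
    exact h4 a
  · intro X _ _ T hTb c
    have hTE : ∀ a z y : A, T (a * E z) y = T a (E z * y) := fun a z y => hTb a y _ (emem z)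
    rw [Fintype.sum_option, Fintype.sum_option]
    simp only [Option.elim]
    have h5 : ∀ a y : A, T a y = T c' (E a * y) +
        ∑ k, T (al (b k)) (E (b' k * a) * y) := by
      intro a y
      conv_lhs => rw [← h2 a]
      rw [map_add, LinearMap.add_apply, map_sum, LinearMap.sum_apply, hTE]
      congr 1
      refine Finset.sum_congr rfl fun k _ => ?_
      rw [hTE]
    have h6 : ∀ z : A, T c' (1 * z) = T c' (E (z * c') * 1) +
        ∑ k, T c' (E (z * al (b k)) * b' k) := by
      intro z
      conv_lhs => rw [one_mul, ← h4 z]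
      rw [map_add, map_sum]
    have h7 : ∀ (j : Fin m), T (al (b j)) (b' j * c) =
        T (al (b j)) (E (b' j * (c * c')) * 1) +
        ∑ k, T (al (b j)) (E (b' j * (c * al (b k))) * b' k) := by
      intro j
      conv_lhs => rw [← h4 (b' j * c)]
      rw [map_add, map_sum, mul_assoc]
      congr 1
      refine Finset.sum_congr rfl fun k _ => ?_
      rw [mul_assoc (b' j)]
    rw [h5 (c * c') 1, Finset.sum_congr rfl fun k (_ : k ∈ Finset.univ) => h5 (c * al (b k)) (b' k),
      h6 c, Finset.sum_congr rfl fun j (_ : j ∈ Finset.univ) => h7 j, Finset.sum_add_distrib,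
      Finset.sum_add_distrib, Finset.sum_comm]
    abel

end Pool.Agent.PFD.D6.H6
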