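import Pool.Agent.PFD.StmtsD6b

set_option autoImplicit false

/-!
PFD row PRJ: the projection to the complement, from the Casimir identities.
-/

open scoped BigOperators

noncomputable section

namespace Pool.Agent.PFD.D6.H6

open Pool.Agent.PFC

theorem prj : PrjStmt := by
  intro F A ι _ _ _ _ S g g' lam c' hT hs hC
  set E : A → A := Ev F g g' lam with hE
  have hEx : ∀ x, E x = ∑ i, lam (g' i * x) • g i := fun x => rfl
  have eadd : ∀ x y, E (x + y) = E x + E y := by
    intro x y
    rw [hEx, hEx, hEx, ← Finset.sum_add_distrib]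
    refine Finset.sum_congr rfl fun i _ => ?_
    rw [mul_add, map_add, add_smul]
  have esmul : ∀ (r : F) x, E (r • x) = r • E x := by
    intro r x
    rw [hEx, hEx, Finset.smul_sum]
    refine Finset.sum_congr rfl fun i _ => ?_
    rw [mul_smul_comm, map_smul, smul_eq_mul, mul_smul]
  have emem : ∀ x, E x ∈ S := by
    intro x
    rw [hT.spn, hEx]
    exact Submodule.sum_mem _ fun i _ => Submodule.smul_mem _ _ (Submodule.subset_span ⟨i, rfl⟩)
  have el : ∀ s ∈ S, ∀ x, E (s * x) = s * E x := by
    intro s hsS x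
    have h := hT.cs1 A ((LinearMap.lsmul F A).comp
      (lam.comp (LinearMap.mulRight F x))) s hsS
    have h1 : ∀ a b : A, ((LinearMap.lsmul F A).comp
      (lam.comp (LinearMap.mulRight F x))) a b = lam (a * x) • b := fun a b => rfl
    simp only [h1] at h
    rw [hEx, hEx, Finset.mul_sum]
    refine Eq.trans ?_ (h.trans ?_)
    · refine Finset.sum_congr rfl fun i _ => ?_
      rw [mul_assoc]
    · refine Finset.sum_congr rfl fun i _ => ?_
      rw [mul_smul_comm]
  have er : ∀ s ∈ S, ∀ x, E (x * s) = E x * s := by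
    intro s hsS x
    have h := hT.cs2 A ((LinearMap.lsmul F A).comp
      (lam.comp (LinearMap.mulRight F x))) s hsS
    have h1 : ∀ a b : A, ((LinearMap.lsmul F A).comp
      (lam.comp (LinearMap.mulRight F x))) a b = lam (a * x) • b := fun a b => rfl
    simp only [h1] at h
    rw [hEx, hEx, Finset.sum_mul]
    refine Eq.trans ?_ (h.trans ?_)
    · refine Finset.sum_congr rfl fun i _ => ?_
      rw [← mul_assoc, hs _ s, ← mul_assoc]
    · refine Finset.sum_congr rfl fun i _ => ?_
      rw [smul_mul_assoc]
  have eL : ∀ x y, lam (x * E y) = lam (E x * y) := by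
    intro x y
    have h := hT.cs3 F ((LinearMap.mul F F).compl₁₂ (lam.comp (LinearMap.mulRight F y))
      (lam.comp (LinearMap.mulLeft F x)))
    have h1 : ∀ a b : A, ((LinearMap.mul F F).compl₁₂ (lam.comp (LinearMap.mulRight F y))
      (lam.comp (LinearMap.mulLeft F x))) a b = lam (a * y) * lam (x * b) := fun a b => rfl
    simp only [h1] at h
    rw [hEx, hEx, Finset.mul_sum, Finset.sum_mul, map_sum, map_sum]
    refine Eq.trans ?_ (h.trans ?_)
    · refine Finset.sum_congr rfl fun i _ => ?_
      rw [mul_smul_comm, map_smul, smul_eq_mul]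
    · refine Finset.sum_congr rfl fun i _ => ?_
      rw [smul_mul_assoc, map_smul, smul_eq_mul, hs x (g' i), mul_comm]
  have e1 : ∀ s ∈ S, E s = s * E 1 := by
    intro s hsS
    have h := el s hsS 1
    rwa [mul_one] at h
  have hlin : c' * E 1 = 1 := hC.lin
  have hrin : E 1 * c' = 1 := hC.rin
  refine ⟨emem, el, er, eL, ?_, ?_⟩
  · intro x
    rw [← er c' hC.mem x]
    have h := eL 1 (x * c')
    rw [one_mul] at h
    rw [h, hs, mul_assoc, hlin, mul_one]
  · let EL : A →ₗ[F] A := { toFun := E, map_add' := eadd, map_smul' := esmul }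
    have hq : ∀ x, (LinearMap.id - (LinearMap.mulRight F c').comp EL : A →ₗ[F] A) x =
        x - E x * c' := fun x => rfl
    have esub : ∀ x y, E (x - y) = E x - E y := fun x y => map_sub EL x y
    refine ⟨LinearMap.id - (LinearMap.mulRight F c').comp EL, hq, ?_, ?_, ?_, ?_⟩
    · intro x
      have h0 : E (x - E x * c') = 0 := by
        rw [esub, e1 _ (S.mul_mem (emem x) hC.mem), mul_assoc, hlin, mul_one, sub_self]
      rw [hq x, hq (x - E x * c'), h0, zero_mul, sub_zero]
    · intro s hsS x
      rw [hq, hq, el s hsS, mul_sub, mul_assoc]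
    · intro s hsS x
      rw [hq, hq, er s hsS, sub_mul, mul_assoc, mul_assoc, hC.com s hsS]
    · intro s hsS
      rw [hq, e1 s hsS, mul_assoc, hrin, mul_one, sub_self]

end Pool.Agent.PFD.D6.H6
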