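import Pool.Agent.PFD.StmtsD6
import Pool.Agent.PFC.B4.Key

set_option autoImplicit false

/-!
PFD row QWF: the frame of the complement of the twisted group algebra.
-/

open scoped BigOperators

noncomputable section

namespace Pool.Agent.PFD.D6.H6

open Pool.Agent.PFC

/-- transport of Brauer kernels along an injective homomorphism -/
theorem BK_map {F G H M N : Type} [Field F] [Group G] [Group H] [AddCommGroup M] [Module F M]
    [AddCommGroup N] [Module F N] (ρ : G →* (M →ₗ[F] M)) (σ : H →* (N →ₗ[F] N)) (j : G →* H)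
    (hj : Function.Injective j) (Θ : M →ₗ[F] N) (hΘ : ∀ g m, Θ (ρ g m) = σ (j g) (Θ m))
    (R : Subgroup G) (z : M) (hz : z ∈ BK ρ R) : Θ z ∈ BK σ (R.map j) := by
  classical
  unfold BK at hz
  induction hz using Submodule.span_induction with
  | mem n hn =>
    obtain ⟨P', S, m, hlt, hS, hm, rfl⟩ := hn
    apply Submodule.subset_span
    refine ⟨P'.map j, S.image j, Θ m, ?_, ⟨?_, ?_⟩, ?_, ?_⟩
    · exact lt_of_le_of_ne (Subgroup.map_mono hlt.le)
        (fun h => hlt.ne (Subgroup.map_injective hj h))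
    · intro s hs
      obtain ⟨s0, hs0, rfl⟩ := Finset.mem_image.1 hs
      exact Subgroup.mem_map_of_mem j (hS.1 s0 hs0)
    · rintro p ⟨p0, hp0, rfl⟩
      obtain ⟨s0, ⟨hs0, hs1⟩, hs2⟩ := hS.2 p0 hp0
      refine ⟨j s0, ⟨Finset.mem_image_of_mem j hs0, ?_⟩, ?_⟩
      · rw [← map_inv, ← map_mul]
        exact Subgroup.mem_map_of_mem j hs1
      · rintro s ⟨hs, hs'⟩
        obtain ⟨s1, hs1', rfl⟩ := Finset.mem_image.1 hs
        rw [← map_inv, ← map_mul, Subgroup.mem_map_iff_mem hj] at hs'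
        rw [hs2 s1 ⟨hs1', hs'⟩]
    · rintro h ⟨v, hv, rfl⟩
      rw [← hΘ, hm v hv]
    · rw [map_sum, Finset.sum_image (fun x _ y _ h => hj h)]
      exact Finset.sum_congr rfl fun s _ => hΘ s m
  | zero =>
    rw [map_zero]
    exact Submodule.zero_mem _
  | add a b _ _ ha hb =>
    rw [map_add]
    exact Submodule.add_mem _ ha hb
  | smul r a _ ha =>
    rw [map_smul]
    exact Submodule.smul_mem _ _ ha

theorem exσ {F G A : Type} [Field F] [Group G] [Ring A] [Algebra F A] (γ : G →* A)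
    (P : Submodule F A) (hP : ∀ (g h : G), ∀ x ∈ P, γ g * x * γ h ∈ P) :
    ∃ σ : G × G →* (P →ₗ[F] P), ∀ w (x : P), ((σ w x : P) : A) = γ w.1 * x * γ w.2⁻¹ := by
  refine ⟨{ toFun := fun w => LinearMap.codRestrict P
              (((LinearMap.mulLeft F (γ w.1)).comp (LinearMap.mulRight F (γ w.2⁻¹))).comp
                P.subtype) (fun x => ?_), map_one' := ?_, map_mul' := ?_ }, fun w x => ?_⟩
  · show γ w.1 * ((x : A) * γ w.2⁻¹) ∈ P
    rw [← mul_assoc]
    exact hP _ _ _ x.2
  · apply LinearMap.ext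
    intro x
    apply Subtype.ext
    show γ 1 * ((x : A) * γ 1⁻¹) = x
    rw [inv_one, map_one, one_mul, mul_one]
  · intro w w'
    apply LinearMap.ext
    intro x
    apply Subtype.ext
    show γ (w.1 * w'.1) * ((x : A) * γ (w.2 * w'.2)⁻¹) =
      γ w.1 * (γ w'.1 * ((x : A) * γ w'.2⁻¹) * γ w.2⁻¹)
    rw [mul_inv_rev, map_mul, map_mul]
    simp only [mul_assoc]
  · show γ w.1 * ((x : A) * γ w.2⁻¹) = _
    rw [mul_assoc]

theorem qwf (hpsx : PsxStmt) (hpsm : PsmStmt) : QwfStmt := by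
  intro F V E A _ _ _ _ _ _ _ ℓ _ φ W α n n' c q hctf hU hPS hSpn hqq hql hqr hqn
  have hfact : Fact ℓ.Prime := ⟨hctf.pr⟩
  set P : Submodule F A := LinearMap.range q with hPdef
  have hPx : ∀ x ∈ P, q x = x := by
    rintro x ⟨y, rfl⟩
    exact hqq y
  have hlr : ∀ (g h : V) (a : A), q (α g * a * α h) = α g * q a * α h := by
    intro g h a
    rw [hqr, hql]
  have hP : ∀ (g h : V), ∀ x ∈ P, α g * x * α h ∈ P := by
    rintro g h x ⟨y, rfl⟩
    exact ⟨α g * y * α h, hlr g h y⟩
  obtain ⟨σ, hσ⟩ := exσ (F := F) α P hP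
  set p : A →ₗ[F] P := LinearMap.codRestrict P q (fun x => ⟨x, rfl⟩) with hp
  have hpx : ∀ a, ((p a : P) : A) = q a := fun _ => rfl
  have hpi : ∀ x : P, p (x : A) = x := by
    intro x
    apply Subtype.ext
    rw [hpx]
    exact hPx _ x.2
  have hbi : ∀ (w : V × V) (a : A), bi F α w a = α w.1 * a * α w.2⁻¹ := by
    intro w a
    show α w.1 * (a * α w.2⁻¹) = _
    rw [← mul_assoc]
  have hpσ : ∀ (w : V × V) (a : A), p (bi F α w a) = σ w (p a) := by
    intro w a
    apply Subtype.ext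
    rw [hσ, hpx, hpx, hbi, hlr]
  have hPSσ : PS (fun K => ∃ (e : E) (R : Subgroup V), K = tw (φ e).toMonoidHom R) σ := by
    refine hpsm F (V × V) A P (bi F α) σ _ P.subtype p ?_ ?_ ?_ hPS
    · intro w x
      rw [hbi]
      exact hσ w x
    · intro w a
      exact hpσ w a
    · intro x
      exact hpi x
  have hpg : IsPGroup ℓ (V × V) := by
    rw [IsPGroup.iff_card]
    obtain ⟨m, hm⟩ := (IsPGroup.iff_card).1 hctf.pg
    exact ⟨m + m, by rw [Nat.card_prod, hm, pow_add]⟩
  -- the Brauer quotients at `tw (φ e) R`, `R` not in `W`, vanish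
  have key : ∀ (e : E) (R : Subgroup V), ¬ R ≤ W →
      Fx σ (tw (φ e).toMonoidHom R) ≤ BK σ (tw (φ e).toMonoidHom R) := by
    intro e R hR x hx
    set j : V →* V × V := (φ e).toMonoidHom.prod (MonoidHom.id V) with hj
    have hjinj : Function.Injective j := by
      intro u v h
      exact congrArg Prod.snd h
    have hmap : R.map j = tw (φ e).toMonoidHom R := rfl
    have hcomm : ∀ v : V, α (φ e v) * n e = n e * α v := fun v => (hU.tw e v).symm
    have hcomm' : ∀ v : V, n' e * α (φ e v) = α v * n' e := by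
      intro v
      calc n' e * α (φ e v) = n' e * (α (φ e v) * n e) * n' e := by
              rw [mul_assoc, mul_assoc, hU.ri, mul_one]
        _ = α v * n' e := by
              rw [hcomm, ← mul_assoc, hU.li, one_mul]
    set Θ : A →ₗ[F] P := p.comp (LinearMap.mulLeft F (n e)) with hΘ
    have hΘσ : ∀ (v : V) (a : A), Θ (cj F α v a) = σ (j v) (Θ a) := by
      intro v a
      show p (n e * (α v * (a * α v⁻¹))) = σ (j v) (p (n e * a))
      rw [← hpσ, hbi]
      congr 1
      show _ = α (φ e v) * (n e * a) * α v⁻¹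
      rw [← mul_assoc (α (φ e v)), hcomm]
      simp only [mul_assoc]
    have hfix : n' e * (x : A) ∈ Fx (cj F α) R := by
      intro v hv
      have h1 : σ (j v) x = x := hx (j v) (Subgroup.mem_map_of_mem j hv)
      have h2 : ((σ (j v) x : P) : A) = (x : A) := congrArg Subtype.val h1
      rw [hσ] at h2
      have h3 : α (φ e v) * (x : A) * α v⁻¹ = x := h2
      show α v * (n' e * (x : A) * α v⁻¹) = n' e * (x : A)
      conv_rhs => rw [← h3]
      simp only [← mul_assoc]
      rw [hcomm']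
    obtain ⟨cf, hcf⟩ := hSpn R hR _ hfix
    have h4 := BK_map (cj F α) σ j hjinj Θ hΘσ R _ hcf
    rw [hmap, map_sub, map_sum] at h4
    have h5 : ∀ u : V, Θ (cf u • α u) = 0 := by
      intro u
      rw [map_smul]
      have h6 : Θ (α u) = 0 := by
        apply Subtype.ext
        exact hqn e u
      rw [h6, smul_zero]
    rw [Finset.sum_congr rfl fun u _ => h5 u, Finset.sum_const_zero, sub_zero] at h4
    have h7 : Θ (n' e * (x : A)) = x := by
      show p (n e * (n' e * (x : A))) = x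
      rw [← mul_assoc, hU.ri, one_mul]
      exact hpi x
    rw [h7] at h4
    exact h4
  obtain ⟨Ω, i1, i2, b, d, hfr, hst⟩ :=
    hpsx ℓ F (V × V) P σ _ hpg (fun x y => mul_comm x y) hPSσ
  refine ⟨Ω, i1, i2, fun ω => (b ω : A), fun ω => (d ω).comp p, ?_, ?_, ?_, ?_⟩
  · intro w ω
    show ((b (w • ω) : P) : A) = bi F α w (b ω)
    rw [hfr.1, hσ, hbi]
  · intro w ω x
    show d (w • ω) (p (bi F α w x)) = d ω (p x)
    rw [hpσ, hfr.2.1]
  · intro x
    have h := congrArg Subtype.val (hfr.2.2 (p x))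
    rw [Submodule.coe_sum] at h
    exact h
  · intro ω
    obtain ⟨⟨e, R, hR⟩, hne⟩ := hst ω
    refine ⟨e, R, ?_, hR⟩
    by_contra hnot
    apply hne
    rw [hR]
    exact key e R hnot

end Pool.Agent.PFD.D6.H6
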