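import Pool.Agent.PFD.StmtsD6b

set_option autoImplicit false

/-!
PFD row TGT: the twisted group algebra in `A` and its Casimir element.
-/

open scoped BigOperators

noncomputable section

namespace Pool.Agent.PFD.D6.H6

open Pool.Agent.PFC

section

variable {F V E A : Type} [Field F] [CommGroup V] [Group E] [Ring A] [Algebra F A]
  {φ : E →* MulAut V} {α : V →* A} {n n' : E → A} {c : E → E → F}

theorem unt_n'1 (h : Unt φ α n n' c) : n' 1 = 1 := by
  have h1 := h.li 1
  rwa [h.one, mul_one] at h1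

theorem unt_c [Nontrivial A] (h : Unt φ α n n' c) (e f : E) : c e f ≠ 0 := by
  intro h0
  have h1 := h.mul e f
  rw [h0, zero_smul] at h1
  have h2 : n' f * (n' e * (n e * n f)) = 1 := by
    rw [← mul_assoc (n' e), h.li, one_mul, h.li]
  rw [h1, mul_zero, mul_zero] at h2
  exact zero_ne_one h2

/-- uniqueness of the inverse of `n e` -/
theorem unt_uni (h : Unt φ α n n' c) (e : E) {x : A} (hx : x * n e = 1) : x = n' e := by
  have h1 : x * n e * n' e = n' e := by rw [hx, one_mul]
  rwa [mul_assoc, h.ri, mul_one] at h1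

theorem unt_uni' (h : Unt φ α n n' c) (e : E) {x : A} (hx : n e * x = 1) : x = n' e := by
  have h1 : n' e * (n e * x) = n' e := by rw [hx, mul_one]
  rwa [← mul_assoc, h.li, one_mul] at h1

theorem unt_n'mul (h : Unt φ α n n' c) (e f : E) : n' (e * f) = c e f • (n' f * n' e) := by
  refine (unt_uni h (e * f) ?_).symm
  rw [smul_mul_assoc, ← mul_smul_comm, ← h.mul]
  rw [mul_assoc, ← mul_assoc (n' e), h.li, one_mul, h.li]

theorem unt_nmul [Nontrivial A] (h : Unt φ α n n' c) (e f : E) :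
    n (e * f) = (c e f)⁻¹ • (n e * n f) := by
  rw [h.mul, smul_smul, inv_mul_cancel₀ (unt_c h e f), one_smul]

/-- `n e⁻¹ = c • n' e` -/
theorem unt_ninv (h : Unt φ α n n' c) (e : E) : n e⁻¹ = c e⁻¹ e • n' e := by
  have h1 := h.mul e⁻¹ e
  rw [inv_mul_cancel, h.one] at h1
  have h2 : n e⁻¹ * n e * n' e = c e⁻¹ e • n' e := by
    rw [h1, smul_mul_assoc, one_mul]
  rwa [mul_assoc, h.ri, mul_one] at h2

/-- `n' e = c⁻¹ • n e⁻¹` -/
theorem unt_n'inv [Nontrivial A] (h : Unt φ α n n' c) (e : E) :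
    n' e = (c e⁻¹ e)⁻¹ • n e⁻¹ := by
  rw [unt_ninv h, smul_smul, inv_mul_cancel₀ (unt_c h _ _), one_smul]

/-- `n' e⁻¹ = c⁻¹ • n e` -/
theorem unt_n'inv' [Nontrivial A] (h : Unt φ α n n' c) (e : E) :
    n' e⁻¹ = (c e⁻¹ e)⁻¹ • n e := by
  refine (unt_uni' h e⁻¹ ?_).symm
  rw [unt_ninv h, smul_mul_smul_comm, h.li, mul_inv_cancel₀ (unt_c h _ _), one_smul]

theorem unt_tw' (h : Unt φ α n n' c) (e : E) (u : V) : n' e * α (φ e u) = α u * n' e := by
  calc n' e * α (φ e u) = n' e * (α (φ e u) * n e) * n' e := by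
          rw [mul_assoc, mul_assoc, h.ri, mul_one]
    _ = α u * n' e := by
          rw [← h.tw, ← mul_assoc, h.li, one_mul]

theorem phi_inv (e : E) (u : V) : φ e (φ e⁻¹ u) = u := by
  rw [map_inv]
  exact (φ e).apply_symm_apply u

theorem gg_mul (h : Unt φ α n n' c) (v u : V) (e f : E) :
    gg α n (v, e) * gg α n (u, f) = c e f • gg α n (v * φ e u, e * f) := by
  show α v * n e * (α u * n f) = c e f • (α (v * φ e u) * n (e * f))
  rw [← mul_smul_comm, ← h.mul, map_mul]
  have h1 := h.tw e u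
  calc α v * n e * (α u * n f) = α v * (n e * α u) * n f := by simp only [mul_assoc]
    _ = α v * α (φ e u) * (n e * n f) := by rw [h1]; simp only [mul_assoc]

end

theorem tgt : TgtStmt := by
  intro F V E A _ _ _ _ _ _ _ _ φ α n n' c hU
  set g := gg α n with hg
  set g' := gg' α n' with hg'
  have hgx : ∀ v e, g (v, e) = α v * n e := fun v e => rfl
  have hgx' : ∀ v e, g' (v, e) = n' e * α v⁻¹ := fun v e => rfl
  have hαg : ∀ v, α v = g (v, 1) := by
    intro v
    rw [hgx, hU.one, mul_one]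
  have hng : ∀ e, n e = g (1, e) := by
    intro e
    rw [hgx, map_one, one_mul]
  let P : Submodule F A := Submodule.span F (Set.range g)
  have hgP : ∀ p, g p ∈ P := fun p => Submodule.subset_span ⟨p, rfl⟩
  have h1P : (1 : A) ∈ P := by
    have h := hgP (1, 1)
    rwa [← hαg, map_one] at h
  have hmP : ∀ x y, x ∈ P → y ∈ P → x * y ∈ P := by
    intro x y hx hy
    induction hx using Submodule.span_induction with
    | mem a ha =>
      obtain ⟨⟨v, e⟩, rfl⟩ := ha
      induction hy using Submodule.span_induction with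
      | mem b hb =>
        obtain ⟨⟨u, f⟩, rfl⟩ := hb
        rw [gg_mul hU]
        exact P.smul_mem _ (hgP _)
      | zero => rw [mul_zero]; exact P.zero_mem
      | add b b' _ _ h h' => rw [mul_add]; exact P.add_mem h h'
      | smul r b _ h => rw [mul_smul_comm]; exact P.smul_mem _ h
    | zero => rw [zero_mul]; exact P.zero_mem
    | add a a' _ _ h h' => rw [add_mul]; exact P.add_mem h h'
    | smul r a _ h => rw [smul_mul_assoc]; exact P.smul_mem _ h
  let S : Subalgebra F A := P.toSubalgebra h1P hmP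
  have hSP : ∀ x, x ∈ S ↔ x ∈ P := fun x => Iff.rfl
  have hαS : ∀ u, α u ∈ S := by
    intro u
    rw [hαg]
    exact hgP _
  have hnS : ∀ e, n e ∈ S := by
    intro e
    rw [hng]
    exact hgP _
  have hn'S : ∀ e, n' e ∈ S := by
    intro e
    rw [unt_n'inv hU]
    exact S.smul_mem (hnS _) _
  -- the sets of the elements with cs1, cs2
  let C1 : A → Prop := fun s => ∀ (X : Type) [AddCommGroup X] [Module F X]
    (T : A →ₗ[F] A →ₗ[F] X), ∑ i, T (g' i * s) (g i) = ∑ i, T (g' i) (s * g i)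
  let C2 : A → Prop := fun s => ∀ (X : Type) [AddCommGroup X] [Module F X]
    (T : A →ₗ[F] A →ₗ[F] X), ∑ i, T (s * g' i) (g i) = ∑ i, T (g' i) (g i * s)
  have c1mul : ∀ s t, C1 s → C1 t → C1 (s * t) := by
    intro s t h1 h2 X _ _ T
    have e1 := h1 X (T.comp (LinearMap.mulRight F t))
    have e2 := h2 X (T.compl₂ (LinearMap.mulLeft F s))
    have a1 : ∀ a b : A, (T.comp (LinearMap.mulRight F t)) a b = T (a * t) b := fun a b => rfl
    have a2 : ∀ a b : A, (T.compl₂ (LinearMap.mulLeft F s)) a b = T a (s * b) := fun a b => rfl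
    simp only [a1] at e1
    simp only [a2] at e2
    simp only [← mul_assoc] at e1 e2 ⊢
    rw [e1, e2]
  have c2mul : ∀ s t, C2 s → C2 t → C2 (s * t) := by
    intro s t h1 h2 X _ _ T
    have e2 := h2 X (T.comp (LinearMap.mulLeft F s))
    have e1 := h1 X (T.compl₂ (LinearMap.mulRight F t))
    have a2 : ∀ a b : A, (T.comp (LinearMap.mulLeft F s)) a b = T (s * a) b := fun a b => rfl
    have a1 : ∀ a b : A, (T.compl₂ (LinearMap.mulRight F t)) a b = T a (b * t) := fun a b => rfl
    simp only [a1] at e1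
    simp only [a2] at e2
    simp only [mul_assoc] at e1 e2 ⊢
    rw [e2, e1]
  have c1add : ∀ s t, C1 s → C1 t → C1 (s + t) := by
    intro s t h1 h2 X _ _ T
    have e1 := h1 X T
    have e2 := h2 X T
    simp only [mul_add, add_mul, map_add, LinearMap.add_apply, Finset.sum_add_distrib]
    rw [e1, e2]
  have c2add : ∀ s t, C2 s → C2 t → C2 (s + t) := by
    intro s t h1 h2 X _ _ T
    have e1 := h1 X T
    have e2 := h2 X T
    simp only [mul_add, add_mul, map_add, LinearMap.add_apply, Finset.sum_add_distrib]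
    rw [e1, e2]
  have c1smul : ∀ (r : F) s, C1 s → C1 (r • s) := by
    intro r s h1 X _ _ T
    have e1 := h1 X T
    simp only [mul_smul_comm, smul_mul_assoc, map_smul, LinearMap.smul_apply]
    rw [← Finset.smul_sum, ← Finset.smul_sum, e1]
  have c2smul : ∀ (r : F) s, C2 s → C2 (r • s) := by
    intro r s h1 X _ _ T
    have e1 := h1 X T
    simp only [mul_smul_comm, smul_mul_assoc, map_smul, LinearMap.smul_apply]
    rw [← Finset.smul_sum, ← Finset.smul_sum, e1]
  have c1z : C1 0 := by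
    intro X _ _ T
    simp
  have c2z : C2 0 := by
    intro X _ _ T
    simp
  -- the generators
  have c1α : ∀ u, C1 (α u) := by
    intro u X _ _ T
    rw [Fintype.sum_prod_type_right, Fintype.sum_prod_type_right]
    refine Finset.sum_congr rfl fun e _ => ?_
    refine (Fintype.sum_equiv (Equiv.mulLeft u) _ _ fun w => ?_).symm
    show T (g' (w, e)) (α u * g (w, e)) = T (g' (u * w, e) * α u) (g (u * w, e))
    have x1 : g' (u * w, e) * α u = g' (w, e) := by
      rw [hgx', hgx', mul_assoc, ← map_mul]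
      congr 2
      group
    have x2 : g (u * w, e) = α u * g (w, e) := by
      rw [hgx, hgx, map_mul, mul_assoc]
    rw [x1, x2]
  have c2α : ∀ u, C2 (α u) := by
    intro u X _ _ T
    rw [Fintype.sum_prod_type_right, Fintype.sum_prod_type_right]
    refine Finset.sum_congr rfl fun e _ => ?_
    refine (Fintype.sum_equiv (Equiv.mulLeft (φ e u)) _ _ fun w => ?_).symm
    show T (g' (w, e)) (g (w, e) * α u) = T (α u * g' (φ e u * w, e)) (g (φ e u * w, e))
    have x1 : α u * g' (φ e u * w, e) = g' (w, e) := by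
      rw [hgx', hgx', ← mul_assoc, ← unt_tw' hU, mul_assoc, ← map_mul]
      congr 2
      rw [mul_inv_rev, mul_comm, mul_assoc, inv_mul_cancel, mul_one]
    have x2 : g (φ e u * w, e) = g (w, e) * α u := by
      rw [hgx, hgx, mul_assoc, hU.tw, ← mul_assoc, ← map_mul, mul_comm w]
    rw [x1, x2]
  have c1n : ∀ f, C1 (n f) := by
    intro f X _ _ T
    have hb : Function.Bijective (fun p : V × E => (φ f p.1, f * p.2)) := by
      constructor
      · rintro ⟨v, e⟩ ⟨v', e'⟩ h
        have h1 : φ f v = φ f v' := congrArg Prod.fst h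
        have h2 : f * e = f * e' := congrArg Prod.snd h
        exact Prod.ext ((φ f).injective h1) (mul_left_cancel h2)
      · rintro ⟨v, e⟩
        refine ⟨(φ f⁻¹ v, f⁻¹ * e), ?_⟩
        show (φ f (φ f⁻¹ v), f * (f⁻¹ * e)) = (v, e)
        rw [phi_inv, mul_inv_cancel_left]
    refine (Fintype.sum_bijective _ hb _ _ fun p => ?_).symm
    obtain ⟨w, k⟩ := p
    show T (g' (w, k)) (n f * g (w, k)) = T (g' (φ f w, f * k) * n f) (g (φ f w, f * k))
    have hc := unt_c hU f k
    have x1 : g' (φ f w, f * k) * n f = c f k • g' (w, k) := by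
      have y1 : α (φ f w)⁻¹ * n f = n f * α w⁻¹ := by
        rw [hU.tw, map_inv (φ f)]
      rw [hgx', hgx', mul_assoc, y1, unt_n'mul hU, smul_mul_assoc]
      congr 1
      rw [mul_assoc, ← mul_assoc (n' f), hU.li, one_mul]
    have x2 : g (φ f w, f * k) = (c f k)⁻¹ • (n f * g (w, k)) := by
      rw [hgx, hgx, unt_nmul hU, mul_smul_comm, ← mul_assoc, ← mul_assoc, hU.tw]
    rw [x1, x2, map_smul, map_smul, LinearMap.smul_apply, smul_smul, inv_mul_cancel₀ hc, one_smul]
  have c2n : ∀ f, C2 (n f) := by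
    intro f X _ _ T
    have hb : Function.Bijective (fun p : V × E => (p.1, p.2 * f)) := by
      constructor
      · rintro ⟨v, e⟩ ⟨v', e'⟩ h
        have h1 : v = v' := congrArg Prod.fst h
        have h2 : e * f = e' * f := congrArg Prod.snd h
        exact Prod.ext h1 (mul_right_cancel h2)
      · rintro ⟨v, e⟩
        refine ⟨(v, e * f⁻¹), ?_⟩
        show (v, e * f⁻¹ * f) = (v, e)
        rw [inv_mul_cancel_right]
    refine (Fintype.sum_bijective _ hb _ _ fun p => ?_).symm
    obtain ⟨w, k⟩ := p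
    show T (g' (w, k)) (g (w, k) * n f) = T (n f * g' (w, k * f)) (g (w, k * f))
    have hc := unt_c hU k f
    have x1 : n f * g' (w, k * f) = c k f • g' (w, k) := by
      rw [hgx', hgx', unt_n'mul hU, smul_mul_assoc, mul_smul_comm]
      congr 1
      rw [← mul_assoc, ← mul_assoc, hU.ri, one_mul]
    have x2 : g (w, k * f) = (c k f)⁻¹ • (g (w, k) * n f) := by
      rw [hgx, hgx, unt_nmul hU, mul_smul_comm, mul_assoc]
    rw [x1, x2, map_smul, map_smul, LinearMap.smul_apply, smul_smul, inv_mul_cancel₀ hc, one_smul]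
  have c1S : ∀ s ∈ S, C1 s := by
    intro s hs
    have hs' : s ∈ Submodule.span F (Set.range g) := hs
    induction hs' using Submodule.span_induction with
    | mem a ha =>
      obtain ⟨⟨v, e⟩, rfl⟩ := ha
      exact c1mul _ _ (c1α v) (c1n e)
    | zero => exact c1z
    | add a b ha hb h h' => exact c1add _ _ (h ha) (h' hb)
    | smul r a ha h => exact c1smul _ _ (h ha)
  have c2S : ∀ s ∈ S, C2 s := by
    intro s hs
    have hs' : s ∈ Submodule.span F (Set.range g) := hs
    induction hs' using Submodule.span_induction with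
    | mem a ha =>
      obtain ⟨⟨v, e⟩, rfl⟩ := ha
      exact c2mul _ _ (c2α v) (c2n e)
    | zero => exact c2z
    | add a b ha hb h h' => exact c2add _ _ (h ha) (h' hb)
    | smul r a ha h => exact c2smul _ _ (h ha)
  refine ⟨S, ⟨fun x => Iff.rfl, ?_, fun X _ _ T s hs => c1S s hs X T,
    fun X _ _ T s hs => c2S s hs X T, ?_⟩, hαS, hnS⟩
  · rintro ⟨v, e⟩
    rw [hgx']
    exact S.mul_mem (hn'S e) (hαS _)
  · intro X _ _ T
    have hb : Function.Bijective (fun p : V × E => (φ p.2⁻¹ p.1⁻¹, p.2⁻¹)) := by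
      constructor
      · rintro ⟨v, e⟩ ⟨v', e'⟩ h
        have h2 : e⁻¹ = e'⁻¹ := congrArg Prod.snd h
        have h3 : e = e' := inv_injective h2
        subst h3
        have h1 : φ e⁻¹ v⁻¹ = φ e⁻¹ v'⁻¹ := congrArg Prod.fst h
        exact Prod.ext (inv_injective ((φ e⁻¹).injective h1)) rfl
      · rintro ⟨v, e⟩
        refine ⟨((φ e⁻¹ v)⁻¹, e⁻¹), ?_⟩
        show (φ e⁻¹⁻¹ ((φ e⁻¹ v)⁻¹)⁻¹, e⁻¹⁻¹) = (v, e)
        rw [inv_inv, inv_inv, phi_inv]
    refine Fintype.sum_bijective _ hb _ _ fun p => ?_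
    obtain ⟨v, e⟩ := p
    show T (g' (v, e)) (g (v, e)) = T (g (φ e⁻¹ v⁻¹, e⁻¹)) (g' (φ e⁻¹ v⁻¹, e⁻¹))
    have hc := unt_c hU e⁻¹ e
    have x1 : g (φ e⁻¹ v⁻¹, e⁻¹) = c e⁻¹ e • g' (v, e) := by
      rw [hgx, hgx', ← hU.tw, unt_ninv hU, smul_mul_assoc]
    have x2 : g' (φ e⁻¹ v⁻¹, e⁻¹) = (c e⁻¹ e)⁻¹ • g (v, e) := by
      rw [hgx, hgx', unt_n'inv' hU, smul_mul_assoc, hU.tw, ← map_inv (φ e⁻¹), inv_inv, phi_inv]
    rw [x1, x2, map_smul, map_smul, LinearMap.smul_apply, smul_smul, inv_mul_cancel₀ hc, one_smul]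

end Pool.Agent.PFD.D6.H6
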